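import Mathlib

set_option autoImplicit false

/-! # Ternary quadratic forms: algebra -/

namespace Pool.Agent.Q38.QP

open MvPolynomial

section quad

variable {K : Type} [Field K]

theorem pd_comm {σ : Type} (i k : σ) (f : MvPolynomial σ K) :
    pderiv i (pderiv k f) = pderiv k (pderiv i f) := by
  classical
  have h : ⁅(pderiv i : Derivation K (MvPolynomial σ K) (MvPolynomial σ K)),
      (pderiv k : Derivation K (MvPolynomial σ K) (MvPolynomial σ K))⁆ = 0 := by
    refine MvPolynomial.derivation_ext fun j => ?_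
    rw [Derivation.commutator_apply, pderiv_X, pderiv_X]
    simp only [Pi.single_apply]
    split_ifs <;> simp
  have h2 := congrArg (fun D : Derivation K (MvPolynomial σ K) (MvPolynomial σ K) => D f) h
  simp only [Derivation.commutator_apply, Derivation.zero_apply] at h2
  exact sub_eq_zero.1 h2

/-- the matrix of a quadratic form -/
noncomputable def qm {σ : Type} (f : MvPolynomial σ K) : Matrix σ σ K :=
  Matrix.of fun i k => (2 : K)⁻¹ * coeff 0 (pderiv i (pderiv k f))

theorem qm_symm {σ : Type} (f : MvPolynomial σ K) : (qm f).IsSymm := by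
  ext i k
  simp only [qm, Matrix.transpose_apply, Matrix.of_apply]
  rw [pd_comm]

theorem quad_eq {σ : Type} [Fintype σ] [CharZero K] (f : MvPolynomial σ K)
    (hf : f.IsHomogeneous 2) : f = ∑ i, ∑ k, C (qm f i k) * (X i * X k) := by
  have h1 := hf.sum_X_mul_pderiv
  have h2 : ∀ i, pderiv i f = ∑ k, X k * C (coeff 0 (pderiv i (pderiv k f))) := by
    intro i
    have h3 : (pderiv i f).IsHomogeneous 1 := hf.pderiv
    have h4 := h3.sum_X_mul_pderiv
    rw [one_smul] at h4
    rw [← h4]
    refine Finset.sum_congr rfl fun k _ => ?_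
    congr 1
    have h5 : (pderiv k (pderiv i f)).IsHomogeneous 0 := h3.pderiv
    rw [pd_comm i k]
    exact totalDegree_eq_zero_iff_eq_C.1 ((totalDegree_zero_iff_isHomogeneous σ).2 h5)
  have h6 : (2 : K) ≠ 0 := two_ne_zero
  have h8 : (2 : MvPolynomial σ K) * f =
      2 * ∑ i, ∑ k, C (qm f i k) * (X i * X k) := by
    rw [two_smul, ← two_mul] at h1
    rw [← h1, Finset.mul_sum]
    refine Finset.sum_congr rfl fun i _ => ?_
    rw [h2, Finset.mul_sum, Finset.mul_sum]
    refine Finset.sum_congr rfl fun k _ => ?_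
    have h9 : coeff 0 (pderiv i (pderiv k f)) = 2 * qm f i k := by
      simp only [qm, Matrix.of_apply]
      rw [← mul_assoc, mul_inv_cancel₀ h6, one_mul]
    rw [h9, C_mul]
    have h10 : (C (2 : K) : MvPolynomial σ K) = 2 := map_ofNat C 2
    rw [h10]
    ring
  exact mul_left_cancel₀ two_ne_zero h8

theorem quad_aeval {σ S : Type} [Fintype σ] [CharZero K] [CommRing S] [Algebra K S]
    (f : MvPolynomial σ K)
    (hf : f.IsHomogeneous 2) (u : σ → S) :
    aeval u f = ∑ i, ∑ k, algebraMap K S (qm f i k) * (u i * u k) := by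
  conv_lhs => rw [quad_eq f hf]
  simp only [map_sum, map_mul, aeval_C, aeval_X]

end quad

/-- the linear substitution -/
noncomputable def lin {K : Type} [Field K] {n c : ℕ} (M : Matrix (Fin n) (Fin c) K) :
    Fin n → MvPolynomial (Fin c) K := fun i => ∑ k, C (M i k) * X k

theorem rename_lin {K : Type} [Field K] {n c d : ℕ} (s : Fin c → Fin d) (M : Matrix (Fin n) (Fin c) K)
    (i : Fin n) : rename s (lin M i) = ∑ k, C (M i k) * X (s k) := by
  unfold lin
  rw [map_sum]
  refine Finset.sum_congr rfl fun k _ => ?_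
  rw [map_mul, rename_C, rename_X]

/-- **A vector in the kernel**: the form depends on two coordinates only. -/
theorem quad_ker {K : Type} [Field K] [CharZero K] (f : MvPolynomial (Fin 3) K)
    (hf : f.IsHomogeneous 2) (M : Matrix (Fin 3) (Fin 3) K)
    (hv : (qm f).mulVec (fun i => M i 2) = 0) :
    aeval (lin M) f = rename (![0, 1] : Fin 2 → Fin 3)
      (aeval (lin (Matrix.of fun i k => M i (![0, 1] k) : Matrix (Fin 3) (Fin 2) K)) f) := by
  have hc : (rename (![0, 1] : Fin 2 → Fin 3) : MvPolynomial (Fin 2) K →ₐ[K] _)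
      (aeval (lin (Matrix.of fun i k => M i (![0, 1] k) : Matrix (Fin 3) (Fin 2) K)) f) =
      aeval (fun i => rename (![0, 1] : Fin 2 → Fin 3)
        (lin (Matrix.of fun i k => M i (![0, 1] k) : Matrix (Fin 3) (Fin 2) K) i)) f := by
    rw [← comp_aeval_apply]
  rw [hc, quad_aeval f hf, quad_aeval f hf]
  simp only [Fin.sum_univ_two, Fin.sum_univ_three, Matrix.of_apply, lin, map_add, map_mul,
    rename_C, rename_X, Matrix.cons_val_zero, Matrix.cons_val_one, algebraMap_eq]
  have hs := qm_symm f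
  have e01 : qm f 1 0 = qm f 0 1 := hs.apply 0 1
  have e02 : qm f 2 0 = qm f 0 2 := hs.apply 0 2
  have e12 : qm f 2 1 = qm f 1 2 := hs.apply 1 2
  have h0 := congrArg (C : K → MvPolynomial (Fin 3) K) (congrFun hv 0)
  have h1 := congrArg (C : K → MvPolynomial (Fin 3) K) (congrFun hv 1)
  have h2 := congrArg (C : K → MvPolynomial (Fin 3) K) (congrFun hv 2)
  simp only [Matrix.mulVec, dotProduct, Fin.sum_univ_three, Pi.zero_apply, map_zero, map_add,
    map_mul] at h0 h1 h2
  rw [e01] at h1 ⊢
  rw [e02, e12] at h2 ⊢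
  linear_combination (2 * (C (M 0 0) * X 0 + C (M 0 1) * X 1) * X 2 + X 2 ^ 2 * C (M 0 2)) * h0 +
    (2 * (C (M 1 0) * X 0 + C (M 1 1) * X 1) * X 2 + X 2 ^ 2 * C (M 1 2)) * h1 +
    (2 * (C (M 2 0) * X 0 + C (M 2 1) * X 1) * X 2 + X 2 ^ 2 * C (M 2 2)) * h2

/-- a regular matrix with a given last column -/
theorem exists_col {K : Type} [Field K] (v : Fin 3 → K) (hv : v ≠ 0) :
    ∃ M : Matrix (Fin 3) (Fin 3) K, M.det ≠ 0 ∧ (fun i => M i 2) = v := by
  by_cases h0 : v 0 = 0
  · by_cases h1 : v 1 = 0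
    · have h2 : v 2 ≠ 0 := by
        intro h2
        apply hv
        funext i
        fin_cases i
        · exact h0
        · exact h1
        · exact h2
      refine ⟨!![1, 0, v 0; 0, 1, v 1; 0, 0, v 2], ?_, ?_⟩
      · rw [Matrix.det_fin_three]
        simpa using h2
      · funext i
        fin_cases i <;> rfl
    · refine ⟨!![1, 0, v 0; 0, 0, v 1; 0, 1, v 2], ?_, ?_⟩
      · rw [Matrix.det_fin_three]
        simpa using h1
      · funext i
        fin_cases i <;> rfl
  · refine ⟨!![0, 0, v 0; 1, 0, v 1; 0, 1, v 2], ?_, ?_⟩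
    · rw [Matrix.det_fin_three]
      simpa using h0
    · funext i
      fin_cases i <;> rfl

/-- a basis `w, u, v` with `x ⬝ u = x ⬝ v = 0` -/
theorem exists_perp {K : Type} [Field K] (x w : Fin 3 → K) (hw : x ⬝ᵥ w ≠ 0) :
    ∃ M : Matrix (Fin 3) (Fin 3) K, M.det ≠ 0 ∧ (fun i => M i 0) = w ∧
      x ⬝ᵥ (fun i => M i 1) = 0 ∧ x ⬝ᵥ (fun i => M i 2) = 0 := by
  simp only [dotProduct, Fin.sum_univ_three] at hw ⊢
  by_cases h0 : x 0 = 0
  · by_cases h1 : x 1 = 0
    · have h2 : x 2 ≠ 0 := by
        intro h2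
        apply hw
        rw [h0, h1, h2]
        ring
      refine ⟨!![w 0, x 2, 0; w 1, 0, x 2; w 2, -x 0, -x 1], ?_, ?_, ?_, ?_⟩
      · rw [Matrix.det_fin_three]
        have e : ∀ a : K, a = x 2 * (x 0 * w 0 + x 1 * w 1 + x 2 * w 2) → a ≠ 0 := by
          rintro a rfl
          exact mul_ne_zero h2 hw
        refine e _ ?_
        simp
        ring
      · funext i
        fin_cases i <;> rfl
      · simp
        ring
      · simp
        ring
    · refine ⟨!![w 0, x 1, 0; w 1, -x 0, x 2; w 2, 0, -x 1], ?_, ?_, ?_, ?_⟩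
      · rw [Matrix.det_fin_three]
        have e : ∀ a : K, a = x 1 * (x 0 * w 0 + x 1 * w 1 + x 2 * w 2) → a ≠ 0 := by
          rintro a rfl
          exact mul_ne_zero h1 hw
        refine e _ ?_
        simp
        ring
      · funext i
        fin_cases i <;> rfl
      · simp
        ring
      · simp
        ring
  · refine ⟨!![w 0, -x 1, -x 2; w 1, x 0, 0; w 2, 0, x 0], ?_, ?_, ?_, ?_⟩
    · rw [Matrix.det_fin_three]
      have e : ∀ a : K, a = x 0 * (x 0 * w 0 + x 1 * w 1 + x 2 * w 2) → a ≠ 0 := by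
        rintro a rfl
        exact mul_ne_zero h0 hw
      refine e _ ?_
      simp
      ring
    · funext i
      fin_cases i <;> rfl
    · simp
      ring
    · simp
      ring

/-- **Products of linear forms**: the case of a product in disjoint variables. -/
theorem quad_prod {K : Type} [Field K] [CharZero K] (f : MvPolynomial (Fin 3) K)
    (hf : f.IsHomogeneous 2) (x L : Fin 3 → K)
    (hA : qm f = Matrix.vecMulVec x L + Matrix.vecMulVec L x) (M : Matrix (Fin 3) (Fin 3) K)
    (h1 : x ⬝ᵥ (fun i => M i 1) = 0) (h2 : x ⬝ᵥ (fun i => M i 2) = 0)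
    (h0 : L ⬝ᵥ (fun i => M i 0) = 0) :
    aeval (lin M) f = X 0 * (C (2 * (x ⬝ᵥ (fun i => M i 0)) * (L ⬝ᵥ (fun i => M i 1))) * X 1 +
      C (2 * (x ⬝ᵥ (fun i => M i 0)) * (L ⬝ᵥ (fun i => M i 2))) * X 2) := by
  rw [quad_aeval f hf, hA]
  have e1 := congrArg (C : K → MvPolynomial (Fin 3) K) h1
  have e2 := congrArg (C : K → MvPolynomial (Fin 3) K) h2
  have e0 := congrArg (C : K → MvPolynomial (Fin 3) K) h0
  have hC2 : (C (2 : K) : MvPolynomial (Fin 3) K) = 2 := map_ofNat C 2
  simp only [dotProduct, Fin.sum_univ_three, map_zero, map_add, map_mul] at e0 e1 e2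
  simp only [dotProduct, Fin.sum_univ_three, lin, map_add, map_mul, Matrix.add_apply,
    Matrix.vecMulVec_apply, algebraMap_eq, hC2]
  set a0 := (C (x 0) : MvPolynomial (Fin 3) K)
  set a1 := (C (x 1) : MvPolynomial (Fin 3) K)
  set a2 := (C (x 2) : MvPolynomial (Fin 3) K)
  set l0 := (C (L 0) : MvPolynomial (Fin 3) K)
  set l1 := (C (L 1) : MvPolynomial (Fin 3) K)
  set l2 := (C (L 2) : MvPolynomial (Fin 3) K)
  set m00 := (C (M 0 0) : MvPolynomial (Fin 3) K)
  set m10 := (C (M 1 0) : MvPolynomial (Fin 3) K)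
  set m20 := (C (M 2 0) : MvPolynomial (Fin 3) K)
  set m01 := (C (M 0 1) : MvPolynomial (Fin 3) K)
  set m11 := (C (M 1 1) : MvPolynomial (Fin 3) K)
  set m21 := (C (M 2 1) : MvPolynomial (Fin 3) K)
  set m02 := (C (M 0 2) : MvPolynomial (Fin 3) K)
  set m12 := (C (M 1 2) : MvPolynomial (Fin 3) K)
  set m22 := (C (M 2 2) : MvPolynomial (Fin 3) K)
  have hx : a0 * (m00 * X 0 + m01 * X 1 + m02 * X 2) + a1 * (m10 * X 0 + m11 * X 1 + m12 * X 2) +
      a2 * (m20 * X 0 + m21 * X 1 + m22 * X 2) = (a0 * m00 + a1 * m10 + a2 * m20) * X 0 := by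
    linear_combination X 1 * e1 + X 2 * e2
  have hl : l0 * (m00 * X 0 + m01 * X 1 + m02 * X 2) + l1 * (m10 * X 0 + m11 * X 1 + m12 * X 2) +
      l2 * (m20 * X 0 + m21 * X 1 + m22 * X 2) = (l0 * m01 + l1 * m11 + l2 * m21) * X 1 +
      (l0 * m02 + l1 * m12 + l2 * m22) * X 2 := by
    linear_combination X 0 * e0
  set y0 := m00 * X 0 + m01 * X 1 + m02 * X 2
  set y1 := m10 * X 0 + m11 * X 1 + m12 * X 2
  set y2 := m20 * X 0 + m21 * X 1 + m22 * X 2
  linear_combination 2 * (l0 * y0 + l1 * y1 + l2 * y2) * hx +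
    2 * (a0 * m00 + a1 * m10 + a2 * m20) * X 0 * hl

/-- the Jacobian minor of three products of linear forms -/
theorem det_prod {K : Type} [Field K] [CharZero K] (x : Fin 3 → K) (hx : x ≠ 0)
    (L : Fin 3 → Fin 3 → K) (hL : (Matrix.of L).det ≠ 0) (f : Fin 3 → MvPolynomial (Fin 3) K)
    (hf : ∀ t, f t = C 2 * (∑ i, C (x i) * X i) * ∑ i, C (L t i) * X i) :
    (Matrix.of fun s t => pderiv s (f t)).det ≠ 0 := by
  have hC2 : (C (2 : K) : MvPolynomial (Fin 3) K) = 2 := map_ofNat C 2
  have e : (Matrix.of fun s t => pderiv s (f t)).det =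
      16 * (∑ i, C (x i) * X i) ^ 3 * C (Matrix.of L).det := by
    simp only [hf]
    rw [Matrix.det_fin_three, Matrix.det_fin_three]
    simp only [Matrix.of_apply, Fin.sum_univ_three, Derivation.leibniz, map_add, map_sub, map_mul,
      pderiv_C, pderiv_X_self, smul_eq_mul, mul_zero, add_zero, mul_one, hC2,
      pderiv_X_of_ne (show (0 : Fin 3) ≠ 1 by decide), pderiv_X_of_ne (show (0 : Fin 3) ≠ 2 by decide),
      pderiv_X_of_ne (show (1 : Fin 3) ≠ 0 by decide), pderiv_X_of_ne (show (1 : Fin 3) ≠ 2 by decide),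
      pderiv_X_of_ne (show (2 : Fin 3) ≠ 0 by decide), pderiv_X_of_ne (show (2 : Fin 3) ≠ 1 by decide)]
    have h2 : ∀ s : Fin 3, pderiv s (2 : MvPolynomial (Fin 3) K) = 0 := by
      intro s
      rw [← hC2, pderiv_C]
    simp only [h2, mul_zero, add_zero, zero_add]
    ring
  rw [e]
  refine mul_ne_zero (mul_ne_zero (by norm_num) (pow_ne_zero _ ?_)) ?_
  · intro h
    apply hx
    funext i
    have h2 := congrArg (coeff (Finsupp.single i 1)) h
    rw [coeff_sum] at h2
    simp only [coeff_C_mul, coeff_X] at h2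
    rw [Finset.sum_eq_single i] at h2
    · simpa using h2
    · intro k _ hk
      rw [if_neg, mul_zero]
      intro h3
      exact hk (Finsupp.single_left_injective one_ne_zero h3)
    · intro h3
      exact absurd (Finset.mem_univ _) h3
  · exact fun h => hL ((C_injective (Fin 3) K) (by rw [h, C_0]))

/-- linear forms without three independent ones have a common zero -/
theorem exists_zero {K : Type} [Field K] {r : ℕ} (L : Fin r → Fin 3 → K)
    (h : ∀ e : Fin 3 → Fin r, (Matrix.of fun t => L (e t)).det = 0) :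
    ∃ w : Fin 3 → K, w ≠ 0 ∧ ∀ j, L j ⬝ᵥ w = 0 := by
  classical
  by_cases hs : Submodule.span K (Set.range L) = ⊤
  · exfalso
    obtain ⟨g, hg, -, hgi⟩ := Submodule.exists_fun_fin_finrank_span_eq K (Set.range L)
    have hn : Module.finrank K (Submodule.span K (Set.range L)) = 3 := by
      rw [hs, finrank_top]
      simp
    have hg2 : ∀ i, ∃ j, L j = g i := fun i => hg i
    choose e he using hg2
    have h3 := h (fun t => e (Fin.cast hn.symm t))
    have h4 : LinearIndependent K (fun t : Fin 3 => L (e (Fin.cast hn.symm t))) := by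
      have h5 : (fun t : Fin 3 => L (e (Fin.cast hn.symm t))) = g ∘ Fin.cast hn.symm := by
        funext t
        exact he _
      rw [h5]
      exact hgi.comp _ (Fin.cast_injective _)
    have h6 := (Matrix.linearIndependent_rows_iff_isUnit
      (A := Matrix.of fun t : Fin 3 => L (e (Fin.cast hn.symm t)))).1 h4
    rw [Matrix.isUnit_iff_isUnit_det, h3] at h6
    exact not_isUnit_zero h6
  · obtain ⟨φ, hφ, hle⟩ := Submodule.exists_le_ker_of_lt_top _ (lt_top_iff_ne_top.2 hs)
    have hsum : ∀ u : Fin 3 → K, φ u = u ⬝ᵥ fun i => φ (Pi.single i 1) := by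
      intro u
      conv_lhs => rw [← (Pi.basisFun K (Fin 3)).sum_repr u]
      rw [map_sum]
      refine Finset.sum_congr rfl fun i _ => ?_
      rw [map_smul]
      simp
    refine ⟨fun i => φ (Pi.single i 1), ?_, fun j => ?_⟩
    · intro h0
      apply hφ
      ext i
      exact congrFun h0 i
    · rw [← hsum]
      exact hle (Submodule.subset_span ⟨j, rfl⟩)

/-- regular substitutions are injective -/
theorem lin_inj {K : Type} [Field K] {n : ℕ} (M : Matrix (Fin n) (Fin n) K) (hM : M.det ≠ 0)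
    (f : MvPolynomial (Fin n) K) (h : aeval (lin M) f = 0) : f = 0 := by
  have h1 : aeval (lin M⁻¹) (aeval (lin M) f) = f := by
    rw [← AlgHom.comp_apply, comp_aeval]
    have h2 : (fun i => aeval (lin M⁻¹) (lin M i)) = (X : Fin n → MvPolynomial (Fin n) K) := by
      funext i
      unfold lin
      simp only [map_sum, map_mul, aeval_C, aeval_X, algebraMap_eq]
      simp only [Finset.mul_sum]
      rw [Finset.sum_comm]
      have h3 : ∀ l, ∑ k, C (M i k) * (C (M⁻¹ k l) * X l) =
          (C ((M * M⁻¹) i l) * X l : MvPolynomial (Fin n) K) := by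
        intro l
        rw [Matrix.mul_apply, map_sum, Finset.sum_mul]
        refine Finset.sum_congr rfl fun k _ => ?_
        rw [C_mul]
        ring
      simp only [h3]
      rw [Matrix.mul_nonsing_inv M (isUnit_iff_ne_zero.2 hM)]
      rw [Finset.sum_eq_single i]
      · simp
      · intro l _ hl
        rw [Matrix.one_apply_ne hl.symm, C_0, zero_mul]
      · intro h4
        exact absurd (Finset.mem_univ _) h4
    rw [h2]
    exact aeval_X_left_apply f
  rw [← h1, h, map_zero]

/-- the form of a matrix of rank two -/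
theorem quad_two {K : Type} [Field K] [CharZero K] (f : MvPolynomial (Fin 3) K)
    (hf : f.IsHomogeneous 2) (x L : Fin 3 → K)
    (hA : qm f = Matrix.vecMulVec x L + Matrix.vecMulVec L x) :
    f = C 2 * (∑ i, C (x i) * X i) * ∑ i, C (L i) * X i := by
  have hC2 : (C (2 : K) : MvPolynomial (Fin 3) K) = 2 := map_ofNat C 2
  conv_lhs => rw [quad_eq f hf]
  rw [hA]
  simp only [Matrix.add_apply, Matrix.vecMulVec_apply, Fin.sum_univ_three, C_add, C_mul, hC2]
  ring

/-- the kernel of a matrix of rank two -/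
theorem ker_two {K : Type} [Field K] (x L w : Fin 3 → K) (h1 : x ⬝ᵥ w = 0) (h2 : L ⬝ᵥ w = 0) :
    (Matrix.vecMulVec x L + Matrix.vecMulVec L x).mulVec w = 0 := by
  funext i
  simp only [dotProduct, Fin.sum_univ_three, Matrix.mulVec, Matrix.add_apply,
    Matrix.vecMulVec_apply, Pi.zero_apply] at h1 h2 ⊢
  linear_combination L i * h1 + x i * h2

/-- the matrix of second derivatives of a combination -/
theorem hess_comb {K : Type} [Field K] [CharZero K] (φ : K →+* ℂ) {r : ℕ}
    (f : Fin r → MvPolynomial (Fin 3) K) (lam : Fin r → K)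
    (h : (∑ j, lam j • qm (f j)).det ≠ 0) :
    (Matrix.of fun s t => coeff 0 (pderiv s (pderiv t
      (∑ j, C (φ (lam j)) * map φ (f j))))).det ≠ 0 := by
  have e : (Matrix.of fun s t => coeff 0 (pderiv s (pderiv t
      (∑ j, C (φ (lam j)) * map φ (f j))))) =
      φ.mapMatrix ((2 : K) • ∑ j, lam j • qm (f j)) := by
    ext s t
    rw [RingHom.mapMatrix_apply, Matrix.map_apply, Matrix.of_apply, Matrix.smul_apply,
      Matrix.sum_apply, smul_eq_mul, Finset.mul_sum, map_sum]
    simp only [map_sum, coeff_sum]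
    refine Finset.sum_congr rfl fun j _ => ?_
    rw [Matrix.smul_apply, smul_eq_mul, qm, Matrix.of_apply]
    have h1 : pderiv s (pderiv t (C (φ (lam j)) * map φ (f j))) =
        C (φ (lam j)) * map φ (pderiv s (pderiv t (f j))) := by
      rw [pderiv_C_mul, pderiv_C_mul, pderiv_map, pderiv_map]
    rw [h1, coeff_C_mul, coeff_map, ← map_mul]
    congr 1
    field_simp
  rw [e, ← RingHom.map_det, Matrix.det_smul]
  intro h2
  have h3 := (map_eq_zero φ).1 h2
  exact mul_ne_zero (pow_ne_zero _ two_ne_zero) h h3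

end Pool.Agent.Q38.QP
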