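import Pool.Agent.Q57.QP.Stm

set_option autoImplicit false

/-! # Step Q4: one variable -/

namespace Pool.Agent.Q38.QP

open MeasureTheory MvPolynomial Topology
open Pool.Agent.W427.SMC Pool.Agent.Y230.PT Pool.Agent.Y230.PS
open Pool.Agent.Q57.QP
open scoped ENNReal

attribute [local instance] msK bsK msZ bsZ

variable {p : ℕ} [Fact p.Prime]

/-- the values of the norm -/
theorem norm_val (x : ℚ_[p]) : ‖x‖ = 0 ∨ ∃ k : ℤ, ‖x‖ = (p : ℝ) ^ k := by
  by_cases hx : x = 0
  · left
    rw [hx, norm_zero]
  · right
    exact ⟨_, Padic.norm_eq_zpow_neg_valuation hx⟩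

/-- the norm of a family is a size function -/
theorem siz_nrm {σ ι : Type} [Fintype ι] (f : ι → MvPolynomial σ ℚ_[p]) : Siz (nrm f) where
  cont := by
    refine Continuous.norm (continuous_pi fun j => ?_)
    exact MvPolynomial.continuous_eval _
  val x := by
    rcases isEmpty_or_nonempty ι with h | h
    · left
      unfold nrm
      have : (fun j => eval x (f j)) = 0 := funext fun j => (h.false j).elim
      rw [this, norm_zero]
    · obtain ⟨j, hj⟩ := norm_attained (fun j => eval x (f j))
      unfold nrm
      rw [hj]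
      exact norm_val _

theorem siz_coord {n : ℕ} (i : Fin n) : Siz (fun x : Fin n → ℚ_[p] => ‖x i‖) where
  cont := by fun_prop
  val x := norm_val _

/-- **Step Q4**: one variable. -/
theorem qp_x1 : StCone → StUnit → StX1 := by
  classical
  intro hC hU p _
  refine hC p Finset.univ Finset.univ_nonempty 1 one_pos (fun x : Fin 1 → ℚ_[p] => ‖x 0‖)
    (siz_coord 0) (fun a x => ?_) (fun _ => 0) _ (fun T0 _ => ?_) (fun P hP _ => ?_)
  · simp
  · simp
  · refine hU p _ (siz_coord 0) _ P ?_
    intro h
    apply hP
    funext i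
    have : i = 0 := Subsingleton.elim _ _
    rw [this]
    exact norm_eq_zero.1 h

end Pool.Agent.Q38.QP
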