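import Pool.Agent.Q57.QP.Stm
import Pool.Agent.Q38.QP.X1
import Pool.Agent.Q38.QP.FormsA

set_option autoImplicit false

/-! # Step F3: quadratic forms in three variables -/

namespace Pool.Agent.Q38.QP

open MeasureTheory MvPolynomial Topology
open Pool.Agent.W427.SMC Pool.Agent.Y230.PT Pool.Agent.Y230.PS
open Pool.Agent.Q57.QP
open Pool.Agent.Y229 (IsLocalBI sf_equiv exists_fe)
open Pool.Agent.Q57.MD (HT sf_koszul sf_rel_root sf_of_transf sf_mulF OnlyTrivial)
open Pool.Agent.Q57.MC (Same frac transfer_chart sf_iff mulF)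
open scoped ENNReal

attribute [local instance] msK bsK msZ bsZ

variable {p : ℕ} [Fact p.Prime]

/-- monotonicity -/
theorem lp_mono {σ : Type} [Fintype σ] {m m' : ℂ → ℕ∞} {h : (σ → ℚ_[p]) → ℝ} {P : σ → ℚ_[p]}
    (hm : ∀ T, 1 < ‖T‖ → m T ≤ m' T) (hl : LP m h P) : LP m' h P := by
  obtain ⟨U, hU, hP, hV⟩ := hl
  refine ⟨U, hU, hP, fun V h1 h2 T0 hT0 => ?_⟩
  obtain ⟨M, hM, hR⟩ := hV V h1 h2 T0 hT0
  refine ⟨M, hM.trans ?_, hR⟩
  unfold Pool.Agent.Y230.PS.tr
  split_ifs with h
  · exact le_rfl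
  · exact hm T0 (not_le.1 h)

/-- comparison of the roots -/
theorem mS_le {σ τ ι κ : Type} [Fintype ι] [Fintype κ] (φ : ℚ_[p] →+* ℂ)
    (f : ι → MvPolynomial σ ℚ_[p]) (g : κ → MvPolynomial τ ℚ_[p]) (P : σ → ℚ_[p]) (Q : τ → ℚ_[p])
    (h : ∀ α, Pool.Agent.Y229.SF (fun j => map φ (f j)) (fun i => φ (P i)) α →
      Pool.Agent.Y229.SF (fun j => map φ (g j)) (fun i => φ (Q i)) α) (T : ℂ) :
    mS φ f P T ≤ mS φ g Q T := by
  unfold mS
  by_cases h1 : Pool.Agent.Y229.SF (fun j => map φ (f j)) (fun i => φ (P i)) ((rr p T : ℝ) : ℂ)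
  · rw [if_pos h1, if_pos (h _ h1)]
  · rw [if_neg h1]
    exact bot_le

theorem invSelf_one {R : Type} [CommRing R] :
    IsLocalization.Away.invSelf (S := Localization.Away (1 : R)) (1 : R) = 1 := by
  have h := IsLocalization.Away.mul_invSelf (S := Localization.Away (1 : R)) (1 : R)
  rwa [map_one, one_mul] at h

/-- the roots of a family in some of the variables -/
theorem sf_rename {n c r : ℕ} (s : Fin c → Fin n) (hs : Function.Injective s)
    (h : Fin r → MvPolynomial (Fin c) ℂ) (hne : ∃ j, h j ≠ 0) (α : ℂ)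
    (hα : Pool.Agent.Y229.SF h 0 α) :
    Pool.Agent.Y229.SF (fun j => rename s (h j)) 0 α := by
  classical
  have hsame : Same (fun j => rename s (h j)) h (fun t => (X (s t) : MvPolynomial (Fin n) ℂ)) 1 := by
    unfold Same
    congr 2
    funext j
    unfold frac
    simp only [invSelf_one, mul_one]
    have h1 : (rename s (h j) : MvPolynomial (Fin n) ℂ) =
        aeval (fun t => (X (s t) : MvPolynomial (Fin n) ℂ)) (h j) := by
      rw [rename_eq_aeval]
      rfl
    rw [h1]
    exact (aeval_algebraMap_apply _ _ _).symm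
  have ht := transfer_chart (fun j => rename s (h j)) h (fun t => X (s t)) s 1 0
    (by simp) hsame (fun t => by simp) (by
      have : (Matrix.of fun u t => eval (0 : Fin n → ℂ) (pderiv (s u) (X (s t)))) =
          (1 : Matrix (Fin c) (Fin c) ℂ) := by
        ext u t
        rw [Matrix.of_apply, pderiv_X, Matrix.one_apply]
        by_cases hut : u = t
        · rw [hut]
          simp
        · rw [if_neg hut, Pi.single_eq_of_ne (fun h => hut (hs h).symm)]
          simp
      rw [this, Matrix.det_one]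
      exact one_ne_zero)
  exact sf_of_transf _ h 0 ht hne α ((sf_iff h hne α).1 hα)

/-- `rr` of `p` -/
theorem rr_self : ((rr p (p : ℂ) : ℝ) : ℂ) = -1 := by
  rw [rr, Complex.norm_natCast]
  have hlp : Real.log p ≠ 0 := (Real.log_pos (by
    exact_mod_cast (Fact.out : p.Prime).one_lt)).ne'
  rw [neg_div, div_self hlp]
  push_cast
  rfl

theorem map_zero' {σ : Type} (φ : ℚ_[p] →+* ℂ) :
    (fun i => φ ((0 : σ → ℚ_[p]) i)) = 0 := by
  funext i
  exact map_zero φ

/-- families in some of the variables -/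
theorem lpf_rename (hD : StDiff) (φ : ℚ_[p] →+* ℂ) {n c r : ℕ} (s : Fin c → Fin n)
    (hs : Function.Injective s) (h : Fin r → MvPolynomial (Fin c) ℚ_[p]) (hne : ∃ j, h j ≠ 0)
    (hl : LPF φ h 0) : LPF φ (fun j => rename s (h j)) 0 := by
  classical
  have hne' : ∃ j, map φ (h j) ≠ 0 := by
    obtain ⟨j, hj⟩ := hne
    exact ⟨j, fun h => hj ((map_injective φ φ.injective) (by rw [h, map_zero]))⟩
  have h1 : LP (mS φ (fun j => rename s (h j)) (0 : Fin n → ℚ_[p])) (nrm h) 0 := by
    refine lp_mono (fun T _ => mS_le φ h _ 0 0 (fun α hα => ?_) T) hl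
    rw [map_zero'] at hα ⊢
    have h2 := sf_rename s hs (fun j => map φ (h j)) hne' α hα
    have h3 : (fun j => map φ (rename s (h j))) = fun j => rename s (map φ (h j)) := by
      funext j
      rw [map_rename]
    rw [h3]
    exact h2
  refine hD p c (fun t x => x (s t)) (fun t => ContinuousLinearMap.proj (s t)) s
    (nrm fun j => rename s (h j)) (nrm h) 0 _ (siz_nrm h) (fun t => ?_) ?_ ?_ h1
  · exact (ContinuousLinearMap.proj (s t) : (Fin n → ℚ_[p]) →L[ℚ_[p]] ℚ_[p]).hasStrictFDerivAt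
  · have : (Matrix.of fun u t => (ContinuousLinearMap.proj (s t) :
        (Fin n → ℚ_[p]) →L[ℚ_[p]] ℚ_[p]) (Pi.single (s u) 1)) =
        (1 : Matrix (Fin c) (Fin c) ℚ_[p]) := by
      ext u t
      rw [Matrix.of_apply, ContinuousLinearMap.proj_apply, Matrix.one_apply]
      by_cases hut : u = t
      · rw [hut]
        simp
      · rw [if_neg hut, Pi.single_eq_of_ne (fun h => hut (hs h).symm)]
    rw [this, Matrix.det_one]
    exact one_ne_zero
  · refine Filter.Eventually.of_forall fun x => ?_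
    unfold nrm
    congr 1
    funext j
    rw [eval_rename]
    rfl

theorem aff_zero {n : ℕ} (M : Matrix (Fin n) (Fin n) ℚ_[p]) :
    (fun i => C ((0 : Fin n → ℚ_[p]) i) + ∑ k, C (M i k) * X k :
      Fin n → MvPolynomial (Fin n) ℚ_[p]) = lin M := by
  funext i
  rw [Pi.zero_apply, C_0, zero_add]
  rfl

/-- a common vector of the kernels -/
theorem forms_ker (hAff : StAff) (hPlane : StPlane) (hD : StDiff) (φ : ℚ_[p] →+* ℂ) {r : ℕ}
    (f : Fin r → MvPolynomial (Fin 3) ℚ_[p]) (hne : ∃ j, f j ≠ 0)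
    (hf : ∀ j, (f j).IsHomogeneous 2) (v : Fin 3 → ℚ_[p]) (hv0 : v ≠ 0)
    (hv : ∀ j, (qm (f j)).mulVec v = 0) : LPF φ f 0 := by
  obtain ⟨M, hM, hMv⟩ := exists_col v hv0
  refine hAff p φ f 0 M hM hne ?_
  rw [aff_zero]
  set h : Fin r → MvPolynomial (Fin 2) ℚ_[p] := fun j =>
    aeval (lin (Matrix.of fun i k => M i (![0, 1] k) : Matrix (Fin 3) (Fin 2) ℚ_[p])) (f j) with hh
  have he : (fun j => aeval (lin M) (f j)) = fun j => rename (![0, 1] : Fin 2 → Fin 3) (h j) := by
    funext j
    exact quad_ker (f j) (hf j) M (by rw [hMv]; exact hv j)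
  have hne2 : ∃ j, h j ≠ 0 := by
    obtain ⟨j, hj⟩ := hne
    refine ⟨j, fun h0 => hj ?_⟩
    have h1 : aeval (lin M) (f j) = 0 := by
      have h2 : aeval (lin M) (f j) = rename (![0, 1] : Fin 2 → Fin 3) (h j) := congrFun he j
      rw [h2, h0, map_zero]
    exact lin_inj M hM (f j) h1
  rw [he]
  refine lpf_rename hD φ _ ?_ h hne2 (hPlane p φ h hne2 0)
  decide

/-- the product family -/
noncomputable def prF {r : ℕ} (q : Fin r → MvPolynomial (Fin 2) ℚ_[p]) (j : Fin r) :
    MvPolynomial (Fin (1 + 2)) ℚ_[p] :=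
  rename (Fin.castAdd 2) (X 0 : MvPolynomial (Fin 1) ℚ_[p]) * rename (Fin.natAdd 1) (q j)

/-- the roots of the product -/
theorem sf_prF (φ : ℚ_[p] →+* ℂ) {r : ℕ} (q : Fin r → MvPolynomial (Fin 2) ℚ_[p])
    (hq : ∃ j, q j ≠ 0) (α : ℂ)
    (h : α = -1 ∨ Pool.Agent.Y229.SF (fun j => map φ (q j)) 0 α) :
    Pool.Agent.Y229.SF (fun j => map φ (prF q j)) 0 α := by
  classical
  have hne' : ∃ j, map φ (q j) ≠ 0 := by
    obtain ⟨j, hj⟩ := hq
    exact ⟨j, fun h => hj ((map_injective φ φ.injective) (by rw [h, map_zero]))⟩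
  have hx : Pool.Agent.Y229.SF (fun _ : Fin 1 => (X 0 : MvPolynomial (Fin 1) ℂ)) 0 (-1) := by
    have h1 := sf_rel_root (Finset.univ : Finset (Fin 1)) Finset.univ_nonempty
      (fun _ : Fin 1 => (X 0 : MvPolynomial (Fin 1) ℂ)) 1 one_pos (fun j => ?_) ⟨fun _ => 0, ?_⟩
    · simpa using h1
    · unfold HT
      have h2 := isWeightedHomogeneous_X ℂ (fun i : Fin 1 => if i ∈ (Finset.univ : Finset (Fin 1))
        then 1 else 0) 0
      simpa using h2
    · have : Unique ((Finset.univ : Finset (Fin 1)) : Type) :=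
        { default := ⟨0, Finset.mem_univ _⟩
          uniq := fun a => Subtype.ext (Subsingleton.elim _ _) }
      rw [Matrix.det_unique, Matrix.of_apply]
      have h2 : ((default : (Finset.univ : Finset (Fin 1))) : Fin 1) = 0 := Subsingleton.elim _ _
      rw [h2, pderiv_X_self]
      exact one_ne_zero
  have h0 : Pool.Agent.Y229.SF (fun _ : Fin 1 => (X 0 : MvPolynomial (Fin 1) ℂ)) 0 α ∨
      Pool.Agent.Y229.SF (fun j => map φ (q j)) 0 α := by
    rcases h with h | h
    · left
      rw [h]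
      exact hx
    · right
      exact h
  have h1 := sf_mulF (n := 1) (r := 1) (n' := 2) (r' := r)
    (fun _ : Fin 1 => (X 0 : MvPolynomial (Fin 1) ℂ)) (fun j => map φ (q j))
    ⟨0, X_ne_zero _⟩ hne' 0 0 α h0
  refine sf_equiv (Equiv.refl (Fin (1 + 2)))
    (finProdFinEquiv.symm.trans (Equiv.uniqueProd (Fin r) (Fin 1)))
    (mulF (fun _ : Fin 1 => (X 0 : MvPolynomial (Fin 1) ℂ)) (fun j => map φ (q j))) _ (fun j => ?_)
    0 α ?_
  · unfold prF mulF
    rw [map_mul, map_rename, map_rename, map_X]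
    simp only [Equiv.trans_apply, Equiv.uniqueProd_apply, Equiv.coe_refl, rename_id_apply]
  · have h2 : (Sum.elim 0 0 ∘ finSumFinEquiv.symm : Fin (1 + 2) → ℂ) = 0 :=
      Pool.Agent.Q57.MD.elim_zero'
    rw [h2] at h1
    exact h1

/-- products of a coordinate and of linear forms in the other coordinates -/
theorem lpf_prF (hMul : StMul) (hX1 : StX1) (hPlane : StPlane) (φ : ℚ_[p] →+* ℂ) {r : ℕ}
    (q : Fin r → MvPolynomial (Fin 2) ℚ_[p]) (hq : ∃ j, q j ≠ 0) : LPF φ (prF q) 0 := by
  classical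
  have hT : ∀ T : ℂ, 1 < ‖T‖ → (fun T : ℂ => if T = (p : ℂ) then (1 : ℕ∞) else 0) T +
      mS φ q 0 T ≤ mS φ (prF q) 0 T := by
    intro T _
    by_cases hT : T = (p : ℂ)
    · have h1 : mS φ (prF q) 0 T = ⊤ := by
        unfold mS
        rw [if_pos]
        rw [map_zero', hT, rr_self]
        exact sf_prF φ q hq _ (Or.inl rfl)
      rw [h1]
      exact le_top
    · simp only [if_neg hT, zero_add]
      refine mS_le φ q _ 0 0 (fun α hα => ?_) T
      rw [map_zero'] at hα ⊢
      exact sf_prF φ q hq _ (Or.inr hα)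
  have h := hMul p (fun x : Fin 1 → ℚ_[p] => ‖x 0‖) (nrm q) 0 _ _ _ (siz_coord 0) (siz_nrm q) hT
    (hX1 p) (hPlane p φ q hq 0)
  have e : (nrm (prF q)) = fun x => ‖x (Fin.castAdd 2 0)‖ * nrm q (fun i => x (Fin.natAdd 1 i)) := by
    funext x
    unfold nrm
    rw [← norm_smul]
    congr 1
    funext j
    unfold prF
    rw [map_mul, eval_rename, eval_rename, eval_X]
    rfl
  unfold LPF
  rw [e]
  exact h

/-- **Step F3**: quadratic forms in three variables. -/
theorem qp_forms : StConics → StForm3 → StHess → StAff → StPlane → StDiff → StMul → StX1 →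
    StForms := by
  classical
  intro hConics hForm3 hHess hAff hPlane hDiff hMul hX1 p _ φ r f hne hf
  have hfm : ∀ j, (map φ (f j)).IsHomogeneous 2 := fun j => (hf j).map φ
  have hHT : ∀ j, HT (Finset.univ : Finset (Fin 3)) (map φ (f j)) 2 := by
    intro j
    unfold HT
    have h1 : (fun i : Fin 3 => if i ∈ (Finset.univ : Finset (Fin 3)) then 1 else 0) =
        (1 : Fin 3 → ℕ) := by
      funext i
      rw [if_pos (Finset.mem_univ i)]
      rfl
    rw [h1]
    exact hfm j
  have h3 : (-(((Finset.univ : Finset (Fin 3)).card : ℕ) : ℂ) / ((2 : ℕ) : ℂ)) =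
      -3 / ((2 : ℕ) : ℂ) := by
    simp
  rcases hConics ℚ_[p] (fun j => qm (f j)) (fun j => qm_symm _) with ⟨lam, hlam⟩ |
    ⟨v, hv0, hv⟩ | ⟨x, L, hx0, hL⟩
  · have h1 := hess_comb φ f lam hlam
    refine hForm3 p φ f 2 two_pos hne hf ?_
    rw [← h3]
    set F := ∑ j, C (φ (lam j)) * map φ (f j) with hF
    have hF0 : F ≠ 0 := by
      intro h0
      rw [h0] at h1
      apply h1
      have : (Matrix.of fun s t : Fin 3 => coeff 0 (pderiv s (pderiv t
          (0 : MvPolynomial (Fin 3) ℂ)))) = 0 := by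
        ext s t
        rw [Matrix.of_apply, map_zero, map_zero, coeff_zero]
        rfl
      rw [this, Matrix.det_zero]
    have hF2 : F.IsHomogeneous 2 := by
      refine IsHomogeneous.sum _ _ _ fun j _ => ?_
      have h4 := (isHomogeneous_C (Fin 3) (φ (lam j))).mul (hfm j)
      rwa [zero_add] at h4
    exact sf_koszul Finset.univ Finset.univ_nonempty (fun j => map φ (f j)) 2 le_rfl hHT
      (fun j => φ (lam j)) hF0 (hHess F hF2 h1)
  · exact forms_ker hAff hPlane hDiff φ f hne hf v hv0 hv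
  · by_cases h : ∀ e : Fin 3 → Fin r, (Matrix.of fun t => L (e t)).det = 0
    · obtain ⟨w, hw0, hw⟩ := exists_zero L h
      by_cases hxw : x ⬝ᵥ w = 0
      · exact forms_ker hAff hPlane hDiff φ f hne hf w hw0 fun j => by
          rw [hL j]
          exact ker_two x (L j) w hxw (hw j)
      · obtain ⟨M, hM, hM0, hM1, hM2⟩ := exists_perp x w hxw
        refine hAff p φ f 0 M hM hne ?_
        rw [aff_zero]
        set q : Fin r → MvPolynomial (Fin 2) ℚ_[p] := fun j =>
          C (2 * (x ⬝ᵥ (fun i => M i 0)) * (L j ⬝ᵥ (fun i => M i 1))) * X 0 +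
          C (2 * (x ⬝ᵥ (fun i => M i 0)) * (L j ⬝ᵥ (fun i => M i 2))) * X 1 with hq
        have he : (fun j => aeval (lin M) (f j)) = prF q := by
          funext j
          rw [quad_prod (f j) (hf j) x (L j) (hL j) M hM1 hM2 (by rw [hM0]; exact hw j)]
          unfold prF
          rw [hq]
          simp only [map_add, map_mul, rename_C, rename_X]
          rfl
        have hq2 : ∃ j, q j ≠ 0 := by
          obtain ⟨j, hj⟩ := hne
          refine ⟨j, fun h0 => hj (lin_inj M hM (f j) ?_)⟩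
          have h4 : aeval (lin M) (f j) = prF q j := congrFun he j
          rw [h4, prF, h0, map_zero, mul_zero]
        rw [he]
        exact lpf_prF hMul hX1 hPlane φ q hq2
    · push Not at h
      obtain ⟨e, he⟩ := h
      refine hForm3 p φ f 2 two_pos hne hf ?_
      rw [← h3]
      refine sf_rel_root Finset.univ Finset.univ_nonempty (fun j => map φ (f j)) 2 two_pos hHT
        ⟨fun t => e t.1, ?_⟩
      have hd := det_prod (fun i => φ (x i)) (fun h0 => hx0 (by
          funext i
          exact (map_eq_zero φ).1 (congrFun h0 i))) (fun t i => φ (L (e t) i)) (by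
          have h4 : (Matrix.of fun t i => φ (L (e t) i)) =
              φ.mapMatrix (Matrix.of fun t => L (e t)) := by
            ext t i
            rfl
          rw [h4, ← RingHom.map_det]
          exact fun h0 => he ((map_eq_zero φ).1 h0)) (fun t => map φ (f (e t))) (fun t => by
          rw [quad_two (f (e t)) (hf (e t)) x (L (e t)) (hL (e t))]
          simp only [map_mul, map_sum, map_C, map_X, map_ofNat])
      have h5 := Matrix.det_submatrix_equiv_self
        (Equiv.subtypeUnivEquiv (fun i : Fin 3 => Finset.mem_univ i))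
        (Matrix.of fun s t => pderiv s (map φ (f (e t))))
      rw [← h5] at hd
      exact hd

end Pool.Agent.Q38.QP
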