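import Pool.Agent.Y230.PT.Local
import Pool.Agent.W574.LM.Node

set_option autoImplicit false
set_option linter.unusedSectionVars false
set_option linter.unusedVariables false

/-! # The local theorem of `Pool.Agent.Y230.PT` with a local functional equation

Adapted from `Pool.Agent.Y230.PT.Cx` and `Pool.Agent.Y230.PT.Local`: the global functional equation
is replaced by a local one (`Pool.Agent.W574.LM.IsLocEq`). -/

namespace Pool.Agent.Q38.QP

section Cx

open Polynomial Pool.Agent.W574.SM Pool.Agent.W574.LM Pool.Agent.Y230.PT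

variable {ι : Type} [Fintype ι] [DecidableEq ι]

/-- **The structure of a critical exceptional curve.** -/
theorem crit_structL (f : ι → MP) (b : ℂ[X]) (H : MP) (hb : IsLocEq H f b) (g : ι → MP)
    (a0 n0 a1 n1 : ℕ) (hn0 : 1 ≤ n0) (hn1 : 1 ≤ n1) (hgeom : GeomL H f g a0 n0 a1 n1)
    (m : ℕ) (hm : 1 ≤ m) (gc : ℂ → ι → MP) (gI : ι → MP)
    (hgc : ∀ c j, MvPolynomial.aeval (chart c) (g j) = MvPolynomial.X 0 ^ m * gc c j)
    (hgI : ∀ j, MvPolynomial.aeval chartI (g j) = MvPolynomial.X 1 ^ m * gI j)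
    (j0 : ι) (hPj0 : res0 (gc 0 j0) ≠ 0)
    (hJ1 : (n0 - 1) * m ≤ a0 ∧ (n1 - 1) * m ≤ a1)
    (hJ2 : 0 < a0 → (n0 - 1) * a1 < a0 * n1) (hJ2' : 0 < a1 → (n1 - 1) * a0 < a1 * n0)
    (hz0 : a0 = 0 → n0 = 1) (hz1 : a1 = 0 → n1 = 1) (s0 : ℂ) (hs0 : b.eval s0 ≠ 0)
    (hA : ((n0 + n1 : ℕ) : ℂ) + ((a0 + a1 + m : ℕ) : ℂ) * s0 = 0) :
    (∀ j, ∃ lam : ℂ, res0 (gc 0 j) = C lam * res0 (gc 0 j0)) ∧
    (res0 (gc 0 j0)).natDegree ≤ m ∧
    (n1 : ℂ) + s0 * ((a1 + (res0 (gc 0 j0)).rootMultiplicity 0 : ℕ) : ℂ) ≠ 0 ∧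
    (n0 : ℂ) + s0 * ((a0 + (m - (res0 (gc 0 j0)).natDegree) : ℕ) : ℂ) ≠ 0 ∧
    (∀ c, c ≠ 0 → 1 + s0 * ((res0 (gc 0 j0)).rootMultiplicity c : ℂ) ≠ 0) ∧
      ∃ T : Finset ℂ, (∀ c, c ∈ T ↔ c ≠ 0 ∧ (res0 (gc 0 j0)).rootMultiplicity c ≠ 0) ∧
        T.card ≤ 2 ∧
        (T.card = 1 → (a0 + (m - (res0 (gc 0 j0)).natDegree) = 0 ∧ n0 = 1) ∨
          (a1 + (res0 (gc 0 j0)).rootMultiplicity 0 = 0 ∧ n1 = 1)) ∧
        (T.card = 2 → (a0 + (m - (res0 (gc 0 j0)).natDegree) = 0 ∧ n0 = 1) ∧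
          (a1 + (res0 (gc 0 j0)).rootMultiplicity 0 = 0 ∧ n1 = 1)) ∧
        (res0 (gc 0 j0)).rootMultiplicity 0 + ∑ c ∈ T, (res0 (gc 0 j0)).rootMultiplicity c =
          (res0 (gc 0 j0)).natDegree ∧
        ((n0 : ℂ) + s0 * ((a0 + (m - (res0 (gc 0 j0)).natDegree) : ℕ) : ℂ)) +
          ((n1 : ℂ) + s0 * ((a1 + (res0 (gc 0 j0)).rootMultiplicity 0 : ℕ) : ℂ)) +
          ∑ c ∈ T, s0 * ((res0 (gc 0 j0)).rootMultiplicity c : ℂ) = 0 := by
  classical
  obtain ⟨ξ, W, W', hW, hW', hf, hJ, hHc⟩ := hgeom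
  obtain ⟨hf0, hJ0⟩ := geom_chart_aux f g (gc 0) a0 n0 a1 n1 hn0 hn1 ξ W W' hf hJ m 0 (hgc 0)
  rw [map_zero, add_zero] at hJ0
  simp only [map_zero, add_zero] at hf0
  set ξ0 : Fin 2 → MP := fun i => MvPolynomial.aeval (chart 0) (ξ i) with hξ0
  set a := a0 + a1 + m with ha
  set n := n0 + n1 with hn
  have hapos : 0 < a := by omega
  have hac : (a : ℂ) ≠ 0 := Nat.cast_ne_zero.2 hapos.ne'
  have hs : s0 = -(n : ℂ) / a := by
    rw [eq_div_iff hac]
    linear_combination hA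
  set P : ι → ℂ[X] := fun j => res0 (gc 0 j) with hP
  have hPc : ∀ c j, res0 (gc c j) = (P j).comp (X + C c) := fun c j =>
    res0_chart (g j) (gc 0 j) (gc c j) m c (hgc 0 j) (hgc c j)
  change P j0 ≠ 0 at hPj0
  set S : Finset ℂ := insert 0 (P j0).roots.toFinset with hSdef
  have hPS : ∀ c ∉ S, (P j0).eval c ≠ 0 := by
    intro c hc h
    apply hc
    rw [hSdef, Finset.mem_insert, Multiset.mem_toFinset]
    exact Or.inr ((mem_roots hPj0).2 h)
  set w := MvPolynomial.constantCoeff W with hw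
  set w' := MvPolynomial.constantCoeff W' with hw'
  set G : ι → MP := fun j => MvPolynomial.X 1 ^ a1 * MvPolynomial.aeval (chart 0) W * gc 0 j
    with hG
  set Jp : MP := MvPolynomial.X 1 ^ (n1 - 1) * MvPolynomial.aeval (chart 0) W' with hJp
  have hresG : ∀ j, res0 (G j) = C w * (X ^ a1 * P j) := by
    intro j
    rw [hG]
    simp only
    rw [map_mul, map_mul, map_pow, res0_X1, res0_chart_const]
    ring
  have hresJ : res0 Jp = C w' * X ^ (n1 - 1) := by
    rw [hJp, map_mul, map_pow, res0_X1, res0_chart_const]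
    ring
  have hH1 : res0 (MvPolynomial.aeval ξ0 H)
      = C (MvPolynomial.constantCoeff (MvPolynomial.aeval ξ H)) := by
    rw [hξ0, aeval_comp, res0_chart_const]
  have hHe : ∀ c : ℂ, MvPolynomial.eval ![0, c] (MvPolynomial.aeval ξ0 H) ≠ 0 := by
    intro c
    rw [← eval_res0, hH1, eval_C]
    exact hHc
  have hHr : resM (RatFunc.X : RatFunc ℂ) (MvPolynomial.aeval ξ0 H) ≠ 0 := by
    rw [resM_eq, hH1]
    exact am_ne (C_ne_zero.2 hHc)
  -- the leading forms are proportional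
  have hprop : ∀ i, ∃ lam : ℂ, P i = C lam * P j0 := by
    intro i
    by_cases hWr : derivative (P i) * P j0 - P i * derivative (P j0) = 0
    · exact prop_of_wronskian (P i) (P j0) hPj0 hWr
    · exfalso
      have hne : X * (P j0 * (derivative (P i) * P j0 - P i * derivative (P j0))) ≠ 0 :=
        mul_ne_zero X_ne_zero (mul_ne_zero hPj0 hWr)
      obtain ⟨c, hc⟩ : ∃ c : ℂ,
          (X * (P j0 * (derivative (P i) * P j0 - P i * derivative (P j0)))).eval c ≠ 0 := by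
        by_contra hall
        push Not at hall
        exact hne (Polynomial.funext (fun x => by rw [hall x, eval_zero]))
      rw [eval_mul, eval_mul, eval_X] at hc
      have hc0 : c ≠ 0 := left_ne_zero_of_mul hc
      have hcP : (P j0).eval c ≠ 0 := left_ne_zero_of_mul (right_ne_zero_of_mul hc)
      have hcW : (derivative (P i) * P j0 - P i * derivative (P j0)).eval c ≠ 0 :=
        right_ne_zero_of_mul (right_ne_zero_of_mul hc)
      apply hs0
      rw [hs]
      refine plane_reesL f b H hb ξ0 a n hapos (by omega) G hf0 Jp hJ0 c (hHe c) ?_ j0 i ?_ ?_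
      · rw [← eval_res0, hresJ, eval_mul, eval_C, eval_pow, eval_X]
        exact mul_ne_zero hW' (pow_ne_zero _ hc0)
      · rw [← eval_res0, hresG, eval_mul, eval_C, eval_mul, eval_pow, eval_X]
        exact mul_ne_zero hW (mul_ne_zero (pow_ne_zero _ hc0) hcP)
      · rw [← eval_res0, map_sub, map_mul res0 (MvPolynomial.pderiv 1 (G i)) (G j0),
          map_mul res0 (G i) (MvPolynomial.pderiv 1 (G j0)), res0_pderiv, res0_pderiv, hresG,
          hresG]
        have h1 : derivative (C w * (X ^ a1 * P i)) * (C w * (X ^ a1 * P j0))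
            - C w * (X ^ a1 * P i) * derivative (C w * (X ^ a1 * P j0))
            = C w ^ 2 * (X ^ a1) ^ 2 *
              (derivative (P i) * P j0 - P i * derivative (P j0)) := by
          simp only [derivative_mul, derivative_C]
          ring
        rw [h1, eval_mul, eval_mul, eval_pow, eval_pow, eval_C, eval_pow, eval_X]
        exact mul_ne_zero (mul_ne_zero (pow_ne_zero _ hW) (pow_ne_zero _ (pow_ne_zero _ hc0))) hcW
  choose lam hlam using hprop
  -- there is a rational solution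
  have hsol : ∃ R : RatFunc ℂ, dR R + algebraMap ℂ (RatFunc ℂ) (-(n : ℂ) / a) *
      (dR (resM RatFunc.X (G j0)) * (resM RatFunc.X (G j0))⁻¹) * R = resM RatFunc.X Jp := by
    by_contra hno
    push Not at hno
    apply hs0
    rw [hs]
    refine tw_rootL dR RatFunc.X ?_ f b H hb ξ0 hHr a n hapos (by omega) G hf0 Jp hJ0 ?_ j0 ?_ hno
    · rw [← RatFunc.algebraMap_X, dR_algebraMap, derivative_X, map_one]
    · rw [resM_eq, hresJ]
      exact am_ne (mul_ne_zero (C_ne_zero.2 hW') (pow_ne_zero _ X_ne_zero))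
    · rw [resM_eq, hresG]
      exact am_ne (mul_ne_zero (C_ne_zero.2 hW) (mul_ne_zero (pow_ne_zero _ X_ne_zero) hPj0))
  obtain ⟨R, hR⟩ := hsol
  set Q : ℂ[X] := X ^ a1 * P j0 with hQ
  have hQ0 : Q ≠ 0 := mul_ne_zero (pow_ne_zero _ X_ne_zero) hPj0
  have hR' : dR R + algebraMap ℂ (RatFunc ℂ) (-(n : ℂ) / a) *
      (dR (algebraMap ℂ[X] (RatFunc ℂ) Q) * (algebraMap ℂ[X] (RatFunc ℂ) Q)⁻¹) * R
        = algebraMap ℂ[X] (RatFunc ℂ) (C w' * X ^ (n1 - 1)) := by
    rw [resM_eq, resM_eq, hresG, hresJ] at hR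
    rw [← hR]
    congr 3
    have h1 : algebraMap ℂ[X] (RatFunc ℂ) (C w * (X ^ a1 * P j0))
        = algebraMap ℂ (RatFunc ℂ) w * algebraMap ℂ[X] (RatFunc ℂ) Q := by
      rw [map_mul]; rfl
    rw [h1, Derivation.leibniz, Derivation.map_algebraMap, smul_zero, add_zero, smul_eq_mul]
    have hwne : algebraMap ℂ (RatFunc ℂ) w ≠ 0 := by
      rw [Ne, map_eq_zero]; exact hW
    have hQne := am_ne hQ0
    field_simp
  obtain ⟨A, hAne, hAeq⟩ := sol_poly Q hQ0 n a hapos w' hW' (n1 - 1) R hR'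
  have hdeg := coeff_resI (g j0) (gc 0 j0) (gI j0) m (hgc 0 j0) (hgI j0)
  have hbr := bracketT (P j0) hPj0 m a0 n0 a1 n1 hdeg.1 hm hn0 hn1 S (Finset.mem_insert_self _ _) hPS (by
      intro h
      by_cases ha1 : 0 < a1
      · have h1 := hJ2' ha1
        have h2 := hJ1.2
        have h3 : (n1 - 1) * a = (n1 - 1) * a0 + (n1 - 1) * a1 + (n1 - 1) * m := by
          rw [ha]; ring
        have h4 : (n1 - 1) * a1 + a1 = a1 * n1 := by
          have : n1 = (n1 - 1) + 1 := by omega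
          conv_rhs => rw [this]
          ring
        have h5 : n * (a1 + (P j0).rootMultiplicity 0)
            = a1 * n0 + a1 * n1 + n * (P j0).rootMultiplicity 0 := by
          rw [hn]; ring
        have h6 : 0 ≤ n * (P j0).rootMultiplicity 0 := Nat.zero_le _
        show (n1 - 1) * a < n * (a1 + (P j0).rootMultiplicity 0)
        omega
      · have h1 : a1 = 0 := by omega
        have h2 := hz1 h1
        rw [h2, Nat.sub_self, zero_mul]
        exact Nat.mul_pos (by omega) h) hz1 (by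
      intro h
      by_cases ha0 : 0 < a0
      · have h1 := hJ2 ha0
        have h2 := hJ1.1
        have h3 : (n0 - 1) * a = (n0 - 1) * a0 + (n0 - 1) * a1 + (n0 - 1) * m := by
          rw [ha]; ring
        have h4 : (n0 - 1) * a0 + a0 = a0 * n0 := by
          have : n0 = (n0 - 1) + 1 := by omega
          conv_rhs => rw [this]
          ring
        have h5 : n * (a0 + (m - (P j0).natDegree))
            = a0 * n0 + a0 * n1 + n * (m - (P j0).natDegree) := by
          rw [hn]; ring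
        have h6 : 0 ≤ n * (m - (P j0).natDegree) := Nat.zero_le _
        show (n0 - 1) * a < n * (a0 + (m - (P j0).natDegree))
        omega
      · have h1 : a0 = 0 := by omega
        have h2 := hz0 h1
        rw [h2, Nat.sub_self, zero_mul]
        exact Nat.mul_pos (by omega) h) hz0 w' hW' A hAne s0 hs (by rw [hs]; exact hAeq)
  exact ⟨fun j => ⟨lam j, hlam j⟩, hdeg.1, hbr⟩

/-- **The invariants of the children.** -/
theorem inv_childrenL (f : ι → MP) (b : ℂ[X]) (H : MP) (hb : IsLocEq H f b) (s0 : ℂ)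
    (hs0 : b.eval s0 ≠ 0) {g : ι → MP} {a0 n0 a1 n1 : ℕ} (m : ℕ) (hm : 1 ≤ m)
    (gc : ℂ → ι → MP) (gI : ι → MP)
    (hgc : ∀ c j, MvPolynomial.aeval (chart c) (g j) = MvPolynomial.X 0 ^ m * gc c j)
    (hgI : ∀ j, MvPolynomial.aeval chartI (g j) = MvPolynomial.X 1 ^ m * gI j)
    (j0 : ι) (hP0 : res0 (gc 0 j0) ≠ 0) (inv : InvL H f s0 g a0 n0 a1 n1) :
    InvL H f s0 (gc 0) (a0 + a1 + m) (n0 + n1) a1 n1 ∧
    (∀ c, c ≠ 0 → InvL H f s0 (gc c) (a0 + a1 + m) (n0 + n1) 0 1) ∧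
    InvL H f s0 gI a0 n0 (a0 + a1 + m) (n0 + n1) := by
  classical
  have hn0 := inv.hn0
  have hn1 := inv.hn1
  have hmult : IsMult g m := ⟨⟨gc 0, hgc 0⟩, ⟨gI, hgI⟩⟩
  have hJ1 := inv.hJ1 m hmult
  -- a generator with nonzero leading form
  have hresc : ∀ c j, res0 (gc c j) = (res0 (gc 0 j)).comp (X + C c) := fun c j =>
    res0_chart (g j) (gc 0 j) (gc c j) m c (hgc 0 j) (hgc c j)
  set S : Finset ℂ := insert 0 (res0 (gc 0 j0)).roots.toFinset with hSdef
  have h0S : (0 : ℂ) ∈ S := Finset.mem_insert_self _ _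
  have hS : ∀ c ∉ S, ∃ j, MvPolynomial.constantCoeff (gc c j) ≠ 0 := by
    intro c hc
    refine ⟨j0, ?_⟩
    rw [← coeff_res0, hresc, coeff_zero_eq_eval_zero, eval_comp]
    simp only [eval_add, eval_X, eval_C, zero_add]
    intro h
    apply hc
    rw [hSdef, Finset.mem_insert, Multiset.mem_toFinset]
    exact Or.inr ((mem_roots hP0).2 h)
  have hdeg := coeff_resI (g j0) (gc 0 j0) (gI j0) m (hgc 0 j0) (hgI j0)
  have hPc : ∀ c, res0 (gc c j0) ≠ 0 ∧ (res0 (gc c j0)).natDegree ≤ m := by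
    intro c
    have h1 : (X + C c : ℂ[X]).natDegree = 1 := natDegree_X_add_C c
    constructor
    · intro h
      have h2 := ord_comp (res0 (gc 0 j0)) hP0 c
      rw [hresc] at h
      rw [h, coeff_zero] at h2
      exact h2.2 rfl
    · rw [hresc, natDegree_comp, h1, mul_one]
      exact hdeg.1
  have hPI : res1 (gI j0) ≠ 0 := by
    intro h
    have h2 := hdeg.2.2 (m - (res0 (gc 0 j0)).natDegree) (by omega)
    rw [h, coeff_zero] at h2
    have h3 : m - (m - (res0 (gc 0 j0)).natDegree) = (res0 (gc 0 j0)).natDegree := by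
      have := hdeg.1
      omega
    rw [h3] at h2
    exact hP0 (leadingCoeff_eq_zero.1 h2.symm)
  have hmc : ∀ c m', IsMult (gc c) m' → m' ≤ m := by
    intro c m' hm'
    obtain ⟨g', hg'⟩ := hm'.2
    exact le_of_dvd (hPc c).1 (hPc c).2 (res0_of_chartI (hg' j0))
  have hmI : ∀ m', IsMult gI m' → m' ≤ m := by
    intro m' hm'
    obtain ⟨g', hg'⟩ := hm'.1
    exact le_of_dvd hPI hdeg.2.1 (res1_of_chart0 (hg' j0))
  have hresI : ∀ j, res0 (g j) = X ^ m * res0 (gI j) := fun j => res0_of_chartI (hgI j)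
  have hres0 : ∀ j, res1 (g j) = X ^ m * res1 (gc 0 j) := fun j => res1_of_chart0 (hgc 0 j)
  -- the analysis of the new exceptional curve
  have han := fun hA => blow_analysisL f b H hb g a0 n0 a1 n1 hn0 hn1 inv.geom m hm gc gI hgc hgI S
    h0S hS hJ1 inv.hJ2 inv.hJ2' inv.hz0 inv.hz1 s0 hs0 hA
  have haz : a0 + a1 + m = 0 → n0 + n1 = 1 := by omega
  have inv0 : InvL H f s0 (gc 0) (a0 + a1 + m) (n0 + n1) a1 n1 :=
    { geom := geom_chart0L H f g (gc 0) a0 n0 a1 n1 hn0 hn1 inv.geom m (hgc 0)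
      hn0 := by omega
      hn1 := hn1
      hz0 := haz
      hz1 := inv.hz1
      hJ1 := fun m' hm' => ⟨arith3 a0 n0 a1 n1 m m' hn0 hn1 (hmc 0 m' hm') hJ1.1 hJ1.2,
        (Nat.mul_le_mul_left _ (hmc 0 m' hm')).trans hJ1.2⟩
      hJ2 := fun _ => arith1 a0 n0 a1 n1 m hn0 hn1 hm inv.hz0 inv.hJ2
      hJ2' := fun ha1 => arith2 a0 n0 a1 n1 m hn0 hn1 ha1 hJ1.2 inv.hJ2'
      hH0 := by
        intro hA μ' hμ'
        obtain ⟨μ, μI, hμ, hμI, h2, h3, h4, h5⟩ := han hA
        rwa [← (hμ 0).unique hμ']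
      hH1 := by
        intro hA1 μ' hμ'
        have h2 := inv.hH1 hA1 (m + μ') (hμ'.shift hres0)
        intro h3
        apply h2
        push_cast at h3 ⊢
        linear_combination h3 - hA1 }
  have invc : ∀ c, c ≠ 0 → InvL H f s0 (gc c) (a0 + a1 + m) (n0 + n1) 0 1 := fun c hc0 =>
    { geom := geom_chartL H f g (gc c) a0 n0 a1 n1 hn0 hn1 inv.geom m c hc0 (hgc c)
      hn0 := by omega
      hn1 := le_rfl
      hz0 := haz
      hz1 := fun _ => rfl
      hJ1 := fun m' hm' => ⟨arith3 a0 n0 a1 n1 m m' hn0 hn1 (hmc c m' hm') hJ1.1 hJ1.2,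
        by simp⟩
      hJ2 := fun h => by rw [mul_zero, mul_one]; exact h
      hJ2' := fun h => absurd h (lt_irrefl 0)
      hH0 := by
        intro hA μ' hμ'
        obtain ⟨μ, μI, hμ, hμI, h2, h3, h4, h5⟩ := han hA
        have h6 := h4 c hc0
        rw [(hμ c).unique hμ'] at h6
        rw [zero_add]
        push_cast
        exact h6
      hH1 := by
        intro hA1
        simp at hA1 }
  have invI : InvL H f s0 gI a0 n0 (a0 + a1 + m) (n0 + n1) :=
    { geom := geom_chartIL H f g gI a0 n0 a1 n1 hn0 hn1 inv.geom m hgI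
      hn0 := hn0
      hn1 := by omega
      hz0 := inv.hz0
      hz1 := haz
      hJ1 := fun m' hm' => ⟨(Nat.mul_le_mul_left _ (hmI m' hm')).trans hJ1.1,
        arith3 a0 n0 a1 n1 m m' hn0 hn1 (hmI m' hm') hJ1.1 hJ1.2⟩
      hJ2 := fun ha0 => by
        have := arith2 a1 n1 a0 n0 m hn1 hn0 ha0 hJ1.1 inv.hJ2
        rwa [add_comm a1 a0, add_comm n1 n0] at this
      hJ2' := fun _ => by
        have := arith1 a1 n1 a0 n0 m hn1 hn0 hm inv.hz1 inv.hJ2'
        rwa [add_comm a1 a0, add_comm n1 n0] at this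
      hH0 := by
        intro hA0 μ' hμ'
        have h2 := inv.hH0 hA0 (m + μ') (hμ'.shift hresI)
        intro h3
        apply h2
        push_cast at h3 ⊢
        linear_combination h3 - hA0
      hH1 := by
        intro hA μ' hμ'
        obtain ⟨μ, μI, hμ, hμI, h2, h3, h4, h5⟩ := han hA
        rwa [← hμI.unique hμ'] }
  exact ⟨inv0, invc, invI⟩

end Cx

section Ctx

open Pool.Agent.W574.SM Pool.Agent.Y230.RE Pool.Agent.Y230.PL Polynomial
open Pool.Agent.Y230.PT Pool.Agent.W574.LM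

/-- the invariant at the start -/
theorem inv_initialL {ι : Type} (H : MP) (f : ι → MP) (s0 : ℂ) (P : Fin 2 → ℂ)
    (hH : MvPolynomial.eval P H ≠ 0) :
    InvL H f s0 (fun j => W574.SM.translate P (f j)) 0 1 0 1 := by
  have hjac : jac (fun i => MvPolynomial.X i + MvPolynomial.C (P i) : Fin 2 → MP) = 1 := by
    rw [jac, Matrix.det_fin_two]
    simp only [Matrix.of_apply, map_add, MvPolynomial.pderiv_C]
    rw [MvPolynomial.pderiv_X_self, MvPolynomial.pderiv_X_self,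
      MvPolynomial.pderiv_X_of_ne (by decide), MvPolynomial.pderiv_X_of_ne (by decide)]
    ring
  have hcc : ∀ q : MP, MvPolynomial.constantCoeff
      (MvPolynomial.aeval (fun i => MvPolynomial.X i + MvPolynomial.C (P i) : Fin 2 → MP) q)
      = MvPolynomial.eval P q := by
    intro q
    induction q using MvPolynomial.induction_on with
    | C a => rw [MvPolynomial.aeval_C, MvPolynomial.eval_C]; exact MvPolynomial.constantCoeff_C _ a
    | add p q hp hq => rw [map_add, map_add, hp, hq, map_add]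
    | mul_X p i hp => rw [map_mul, map_mul, hp, map_mul, MvPolynomial.aeval_X]; simp
  exact
    { geom := ⟨fun i => MvPolynomial.X i + MvPolynomial.C (P i), 1, 1, by simp, by simp,
        fun j => by
          rw [pow_zero, pow_zero, mul_one, mul_one, one_mul]
          rfl, by
          rw [hjac, Nat.sub_self, pow_zero, pow_zero, mul_one, mul_one], by
          rw [hcc]; exact hH⟩
      hn0 := le_rfl
      hn1 := le_rfl
      hz0 := fun _ => rfl
      hz1 := fun _ => rfl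
      hJ1 := fun m _ => by simp
      hJ2 := fun h => absurd h (lt_irrefl 0)
      hJ2' := fun h => absurd h (lt_irrefl 0)
      hH0 := fun h => by simp at h
      hH1 := fun h => by simp at h }

variable {p : ℕ} [Fact p.Prime] {ι : Type} [Fintype ι] [DecidableEq ι]

/-- the context without a root -/
def ICL (H : MP) (φ : ℚ_[p] →+* ℂ) (f : ι → A ℚ_[p]) (r : ℂ) (g : ι → A ℚ_[p]) (d0 d1 : Bool)
    (a0 n0 a1 n1 : ℕ) : Prop :=
  TC g d0 d1 a0 n0 a1 n1 ∧ InvL H (fun j => mp φ (f j)) r (fun j => mp φ (g j)) a0 n0 a1 n1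

theorem closed_ICL (H : MP) (φ : ℚ_[p] →+* ℂ) (f : ι → A ℚ_[p]) (b : ℂ[X])
    (hb : IsLocEq H (fun j => mp φ (f j)) b) (r : ℂ) (hr : b.eval r ≠ 0) :
    Closed (ICL H φ f r) where
  pos _ _ _ _ _ _ _ h := ⟨h.1.1, h.1.2.1⟩
  ty0 _ _ _ _ _ _ h := h.1.2.2.1 rfl
  ty1 _ _ _ _ _ _ h := h.1.2.2.2 rfl
  child g d0 d1 a0 n0 a1 n1 m gc gI hm hgc hgI hne h := by
    obtain ⟨hT, hI⟩ := h
    obtain ⟨t0, tc, tI⟩ := closed_TC.child g d0 d1 a0 n0 a1 n1 m gc gI hm hgc hgI hne hT
    obtain ⟨j0, hj0⟩ := hne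
    have hP0 : res0 (gcC φ (gc 0) 0 j0) ≠ 0 := by
      rw [gcC_0 φ hgc, ← mp_r0, Ne, Polynomial.map_eq_zero]
      exact hj0
    obtain ⟨i0, ic, iI⟩ := inv_childrenL (fun j => mp φ (f j)) b H hb r hr m hm
      (fun c j => gcC φ (gc 0) c j) (fun j => mp φ (gI j))
      (fun c j => gcC_eq φ (hgc 0) c j) (chI_mp φ hgI) j0 hP0 hI
    refine ⟨⟨t0, ?_⟩, fun c hc => ⟨tc c hc, ?_⟩, ⟨tI, iI⟩⟩
    · have : (fun j => mp φ (gc 0 j)) = fun j => gcC φ (gc 0) 0 j := by
        funext j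
        rw [gcC_0 φ hgc]
      rw [this]
      exact i0
    · have : (fun j => mp φ (gc c j)) = fun j => gcC φ (gc 0) (φ c) j := by
        funext j
        rw [gcC_k φ hgc]
      rw [this]
      exact ic (φ c) (fun h => hc ((map_eq_zero φ).1 h))

/-- **No pole at a point.** -/
theorem local_CL (H : MP) (φ : ℚ_[p] →+* ℂ) (f : ι → A ℚ_[p]) (b : ℂ[X])
    (hb : IsLocEq H (fun j => mp φ (f j)) b) {T0 : ℂ} (hT0 : T0 ≠ 0)
    (hr : b.eval ((rr p T0 : ℝ) : ℂ) ≠ 0) (P : Fin 2 → ℚ_[p])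
    (hH : MvPolynomial.eval (fun i => φ (P i)) H ≠ 0) (hne : ∃ j, f j ≠ 0) :
    LReg T0 0 (Zc (Hn (fun j => MvPolynomial.aeval
      (fun i => MvPolynomial.X i + MvPolynomial.C (P i)) (f j) : ι → A ℚ_[p]) 0 1 0 1)) (0, 0) := by
  set r : ℂ := ((rr p T0 : ℝ) : ℂ) with hrdef
  set g : ι → A ℚ_[p] := fun j => MvPolynomial.aeval
      (fun i => MvPolynomial.X i + MvPolynomial.C (P i)) (f j) with hg
  have hgne : ∃ j, g j ≠ 0 := by
    obtain ⟨j, hj⟩ := hne
    refine ⟨j, fun h => hj ?_⟩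
    have h1 : (MvPolynomial.aeval (fun i => MvPolynomial.X i - MvPolynomial.C (P i)) :
        A ℚ_[p] →ₐ[ℚ_[p]] A ℚ_[p]).comp
        (MvPolynomial.aeval (fun i => MvPolynomial.X i + MvPolynomial.C (P i))) =
        AlgHom.id _ _ := by
      refine MvPolynomial.algHom_ext fun i => ?_
      simp
    have h2 := congrArg (fun ψ : A ℚ_[p] →ₐ[ℚ_[p]] A ℚ_[p] => ψ (f j)) h1
    simp only [AlgHom.comp_apply, AlgHom.id_apply] at h2
    rw [← h2]
    change MvPolynomial.aeval _ (g j) = 0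
    rw [h, map_zero]
  have hT : KT g false false := exists_KT g false false hgne (by simp) (by simp)
  have hcr : ∀ a n : ℕ, Crit p T0 a n → (n : ℂ) + r * (a : ℂ) = 0 := fun a n h => crit_r hT0 a n h
  have hcr' : ∀ a n : ℕ, Crit p T0 a n → (n : ℂ) + (a : ℂ) * r = 0 := fun a n h => by
    rw [mul_comm]
    exact hcr a n h
  have hcurve : ∀ m : ℕ, 1 ≤ m → b.eval (-1 / (m : ℂ)) = 0 → ¬ Crit p T0 m 1 := by
    intro m hm h1 h2
    apply hr
    have hmc : (m : ℂ) ≠ 0 := Nat.cast_ne_zero.2 (by omega)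
    have h3 : r = -1 / (m : ℂ) := by
      rw [eq_div_iff hmc]
      have := hcr _ _ h2
      push_cast at this
      linear_combination this
    rw [h3]
    exact h1
  have hCC := main_C hT0 (ICL H φ f r) (closed_ICL H φ f b hb r hr)
    (fun g d0 d1 a0 n0 a1 n1 hc j hj ⟨h1, h2⟩ => by
      have ho : Ord0 (fun j => mp φ (g j)) 0 := ⟨fun i k hk => absurd hk (Nat.not_lt_zero k), j, by
        rw [coeff_res0, mp_cc]
        exact fun h => hj ((map_eq_zero φ).1 h)⟩
      have h3 := hc.2.hH0 (hcr' _ _ h1) 0 ho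
      rw [add_zero] at h3
      exact h3 (hcr _ _ h2))
    (fun g d0 a0 n0 m hm hc h κ hgj h0 h1 j hj => by
      refine hcurve m hm ?_
      obtain ⟨ξ, W, W', hW, hW', hf, hJ, hHc⟩ := hc.2.geom
      refine node_curveVL _ b H hb ξ hHc W W' hW hW' a0 n0 m (by omega) (mp φ h) (fun j => mp φ (κ j))
        ?_ ?_ (by rw [mp_cc, h0, map_zero]) (by
          rw [mp_pderiv, mp_cc]
          exact fun h => h1 ((map_eq_zero φ).1 h)) j (by
          rw [mp_cc]
          exact fun h => hj ((map_eq_zero φ).1 h))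
      · intro i
        rw [hf]
        beta_reduce
        rw [hgj, pow_zero, mul_one, mp_mul, mp_pow]
      · rw [hJ, Nat.sub_self, pow_zero, mul_one])
    (fun g d1 a1 n1 m hm hc h κ hgj h0 h1 j hj => by
      refine hcurve m hm ?_
      obtain ⟨ξ, W, W', hW, hW', hf, hJ, hHc⟩ := hc.2.geom
      refine node_curveUL _ b H hb ξ hHc W W' hW hW' a1 n1 m (by omega) (mp φ h) (fun j => mp φ (κ j))
        ?_ ?_ (by rw [mp_cc, h0, map_zero]) (by
          rw [mp_pderiv, mp_cc]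
          exact fun h => h1 ((map_eq_zero φ).1 h)) j (by
          rw [mp_cc]
          exact fun h => hj ((map_eq_zero φ).1 h))
      · intro i
        rw [hf]
        beta_reduce
        rw [hgj, pow_zero, one_mul, mp_mul, mp_pow]
      · rw [hJ, Nat.sub_self, pow_zero, one_mul])
    (fun g d0 d1 a0 n0 a1 n1 m gc gI hm hgc hgI hne' hc hcrit => by
      obtain ⟨j0, hj0⟩ := hne'
      have hI := hc.2
      have hP0 : res0 (gcC φ (gc 0) 0 j0) ≠ 0 := by
        rw [gcC_0 φ hgc, ← mp_r0, Ne, Polynomial.map_eq_zero]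
        exact hj0
      have hmult : IsMult (fun j => mp φ (g j)) m :=
        ⟨⟨fun j => gcC φ (gc 0) 0 j, fun j => gcC_eq φ (hgc 0) 0 j⟩,
          ⟨fun j => mp φ (gI j), fun j => chI_mp φ hgI j⟩⟩
      obtain ⟨hlam, hdeg, hA0, hAI, hAc, T, hT, hcard, h1, h2, hsum, hrel⟩ :=
        crit_structL (fun j => mp φ (f j)) b H hb (fun j => mp φ (g j)) a0 n0 a1 n1 hI.hn0 hI.hn1
          hI.geom m hm (fun c j => gcC φ (gc 0) c j) (fun j => mp φ (gI j))
          (fun c j => gcC_eq φ (hgc 0) c j) (chI_mp φ hgI) j0 hP0 (hI.hJ1 m hmult) hI.hJ2 hI.hJ2'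
          hI.hz0 hI.hz1 r hr (hcr' _ _ hcrit)
      have hPP : res0 (gcC φ (gc 0) 0 j0) = (r0 (gc 0 j0)).map φ := by
        rw [gcC_0 φ hgc, ← mp_r0]
      rw [hPP] at hdeg hA0 hAI hsum hrel h1 h2
      simp only [hPP] at hAc hT hsum hrel
      obtain ⟨γ, μ0, T', μ, hS⟩ := spec_of φ T0 r hcr (r0 (gc 0 j0)) hj0 m a0 n0 a1 n1 hdeg hA0 hAI
        hAc T hT hcard h1 h2 hsum hrel
      set d := (r0 (gc 0 j0)).natDegree with hd
      have hlc : (r0 (gc 0 j0)).coeff d ≠ 0 := leadingCoeff_ne_zero.2 hj0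
      refine ⟨fun j => (r0 (gc 0 j)).coeff d / (r0 (gc 0 j0)).coeff d, r0 (gc 0 j0), γ, μ0, T', μ,
        fun j => ?_, hS⟩
      obtain ⟨l, hl⟩ := hlam j
      rw [hPP, gcC_0 φ hgc, ← mp_r0] at hl
      have hl2 : φ ((r0 (gc 0 j)).coeff d / (r0 (gc 0 j0)).coeff d) = l := by
        have h3 := congrArg (fun Q : ℂ[X] => Q.coeff d) hl
        simp only [coeff_map, coeff_C_mul] at h3
        rw [map_div₀, h3]
        exact mul_div_cancel_right₀ _ (fun h => hlc ((map_eq_zero φ).1 h))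
      apply Polynomial.map_injective φ φ.injective
      rw [hl, Polynomial.map_mul, Polynomial.map_C, hl2])
    (fun g d0 d1 a0 n0 a1 n1 hc hcrit ρ hρ h => by
      have h3 := hc.2.hH0 (hcr' _ _ hcrit) ρ (ord0_mp φ hρ)
      exact h3 (hcr _ _ h))
    (fun g d0 d1 a0 n0 a1 n1 hc hcrit ρ hρ h => by
      have h3 := hc.2.hH1 (hcr' _ _ hcrit) ρ (ord1_mp φ hρ)
      exact h3 (hcr _ _ h))
    hT 0 1 0 1 ⟨⟨le_rfl, le_rfl, fun _ => ⟨rfl, rfl⟩, fun _ => ⟨rfl, rfl⟩⟩, by
      have h1 : (fun j => mp φ (g j)) = fun j => W574.SM.translate (fun i => φ (P i))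
          (mp φ (f j)) := by
        funext j
        exact mp_tr φ P (f j)
      rw [h1]
      exact inv_initialL H _ r _ hH⟩
  refine (hCC 0 0 (fun h => absurd h not_crit01) (fun h => absurd h not_crit01)).congr
    isOpen_univ trivial fun C _ _ s _ => ?_
  rw [crr_false not_crit01, crr_false not_crit01, sub_zero, sub_zero]

end Ctx

end Pool.Agent.Q38.QP
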