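import Pool.Agent.Q57.QP.Stm
import Pool.Agent.Q38.QP.PL1a

set_option autoImplicit false

/-! # Step PL1: a local functional equation and the integrals near a point of the plane -/

namespace Pool.Agent.Q38.QP

open Pool.Agent.Q57.QP

/-- **Step PL1.** -/
theorem qp_pl1 : StPL1 := by
  intro p _ ι _ _ φ f b H hb T0 hT0 hr P hH hne
  exact local_CL H φ f b hb hT0 hr P hH hne

end Pool.Agent.Q38.QP
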