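import Pool.Agent.Q57.QP.Stm

set_option autoImplicit false

/-! # Step PL4: families in two variables near a point -/

namespace Pool.Agent.Q38.QP

open MeasureTheory MvPolynomial Topology
open Pool.Agent.W427.SMC Pool.Agent.Y230.PT Pool.Agent.Y230.PS
open Pool.Agent.Q57.QP
open Pool.Agent.W574.LM (IsLocEq)
open scoped ENNReal

attribute [local instance] msK bsK msZ bsZ

variable {p : ℕ} [Fact p.Prime]

/-- a set of the plane in the coordinates `(x, y)` -/
def prS (V : Set (Fin 2 → ℚ_[p])) : Set (ℚ_[p] × ℚ_[p]) := {x | ![x.1, x.2] ∈ V}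

theorem cont_pr : Continuous (fun x : ℚ_[p] × ℚ_[p] => (![x.1, x.2] : Fin 2 → ℚ_[p])) := by
  refine continuous_pi fun i => ?_
  fin_cases i
  · exact continuous_fst
  · exact continuous_snd

theorem prS_eq (V : Set (Fin 2 → ℚ_[p])) :
    prS V = (fun x : Fin 2 → ℚ_[p] => (x 0, x 1)) '' V := by
  ext x
  constructor
  · intro hx
    exact ⟨![x.1, x.2], hx, rfl⟩
  · rintro ⟨y, hy, rfl⟩
    have h : (![y 0, y 1] : Fin 2 → ℚ_[p]) = y := by
      funext i
      fin_cases i <;> rfl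
    change ![y 0, y 1] ∈ V
    rw [h]
    exact hy

theorem CO_prS {V : Set (Fin 2 → ℚ_[p])} (hV : Pool.Agent.Q57.QP.CO V) :
    Pool.Agent.Y230.PT.CO (prS V) where
  cpt := by
    rw [prS_eq]
    exact hV.1.image (by fun_prop)
  opn := hV.2.preimage cont_pr

theorem IZ_prS {ι : Type} [Fintype ι] [Nonempty ι] (f : ι → MvPolynomial (Fin 2) ℚ_[p])
    {V : Set (Fin 2 → ℚ_[p])} (hV : Pool.Agent.Q57.QP.CO V) (s : ℝ) (hs : 0 ≤ s) :
    Zc (Hn f 0 1 0 1) (prS V) s = IZ (nrm f) V s := by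
  unfold Zc IZ
  congr 2
  have hmp := measurePreserving_finTwoArrow (Pool.Agent.Y230.PT.nu p)
  have hmeas := (ok_Hn f 0 1 0 1 s hs).1
  have h1 := hmp.setLIntegral_comp_preimage (s := prS V) (CO_prS hV).meas hmeas
  have h2 : (MeasurableEquiv.finTwoArrow : (Fin 2 → ℚ_[p]) ≃ᵐ ℚ_[p] × ℚ_[p]) ⁻¹' (prS V) = V := by
    ext y
    have h : (![y 0, y 1] : Fin 2 → ℚ_[p]) = y := by
      funext i
      fin_cases i <;> rfl
    change ![y 0, y 1] ∈ V ↔ y ∈ V
    rw [h]
  rw [h2] at h1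
  unfold nu2
  rw [← h1]
  unfold muE
  refine lintegral_congr fun y => ?_
  unfold nrm
  rw [ofReal_norm_rpow _ hs]
  change Hn f 0 1 0 1 s (y 0, y 1) = _
  unfold Hn
  rw [w01, w01, mul_one, mul_one]
  congr 1
  funext j
  unfold ev
  congr 2
  funext i
  fin_cases i <;> rfl

/-- **Step PL4**: families in two variables. -/
theorem qp_plane : StPL1 → StPL2 → StOpen → StPlane := by
  classical
  intro h1 h2 h3 p _ φ r f hne P
  have hne' : ∃ j, map φ (f j) ≠ 0 := by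
    obtain ⟨j, hj⟩ := hne
    exact ⟨j, fun h => hj ((map_injective φ φ.injective) (by rw [h, map_zero]))⟩
  have : Nonempty (Fin r) := ⟨hne.choose⟩
  obtain ⟨H, b, hb0, hb, hH, hroot⟩ := h2 (fun j => map φ (f j)) hne' (fun i => φ (P i))
  obtain ⟨b', hb0', hb'⟩ := Pool.Agent.Y229.exists_fe (fun j => map φ (f j)) hne'
  refine ⟨{x | eval (fun i => φ (x i)) H ≠ 0}, ?_, hH, ?_⟩
  · rw [isOpen_iff_mem_nhds]
    intro x hx
    exact h3 p φ H x hx
  · intro V hVU hV T0 hT0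
    have key : ∀ M : ℕ, (∀ x ∈ V, LReg T0 M (Zc (Hn (nd f x) 0 1 0 1)) (0, 0)) →
        Reg p T0 M (IZ (nrm f) V) := by
      intro M hM
      refine (LReg.glue (addF_Zc (ok_Hn f 0 1 0 1)) (CO_prS hV) fun x hx =>
        lreg_pt f x (hM _ hx)).congr fun s hs => IZ_prS f hV s hs
    by_cases hT1 : ‖T0‖ ≤ 1
    · exact ⟨0, by simp, key 0 fun x _ => local_0 f hT0 hT1 x hne⟩
    · by_cases hr : b.eval ((rr p T0 : ℝ) : ℂ) = 0
      · refine ⟨b'.rootMultiplicity ((rr p T0 : ℝ) : ℂ), ?_, key _ fun x _ =>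
          local_M φ f b' hb0' hb' hT0 x hne⟩
        have hS := hroot _ hr
        unfold Pool.Agent.Y230.PS.tr mS
        rw [if_neg hT1, if_pos hS]
        exact le_top
      · exact ⟨0, by simp, key 0 fun x hx => h1 p φ f b H hb hT0 hr x (hVU hx) hne⟩

end Pool.Agent.Q38.QP
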